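import Mathlib
import Pool.Agent.H29MM.Main
import Pool.Agent.H29MM.PGM
import Pool.Agent.H29MM.ODD
import Pool.Agent.H29MM.ARR
import Pool.Agent.H29MM.FOUR
import Pool.Agent.H29MM.EMB
import Pool.Agent.H29MM.BLOW
import Pool.Agent.H29MM.SIZE

/-!
# Modular Hadamard matrices for all odd moduli

For all large `n`, all `a ≥ 2` with `2 ^ a ∣ n` and all odd `d ≤ (log n) ^ (1 / 8)` there is an `n × n`
sign matrix whose distinct rows have inner products divisible by `2 ^ a * d`. So for every `m` that is not
divisible by eight there are `m`-modular Hadamard matrices of all large orders divisible by four.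

Proof. It is enough to treat the modulus `4 * d` (doubling), and one may assume that `n = 4 * m` has few
factors two (otherwise there is a Hadamard matrix, by the `log*` existence theorem). Choose an odd `u` with
`16 * u = n` modulo `d` and write `4 * u` as a sum of four odd squares. Symmetric weighing matrices of odd
orders with these weights (Kronecker products of matrices of projective planes) and the Williamson array
give a weighing matrix `A` of order `4 * k`, `k` odd, and weight `w = 4 * u`. Let `E` be a Hadamard matrix of
order `N = 2 ^ T * l` that contains a `4 * k` by `4 * k` block `K` with `K = - A` on the support of `A`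
such that the product of the entries of every row of `E` in these columns is one. Replace the rows and
columns of the block by `v` copies, where `v = 1` modulo `d`, and the entry `K i j` by the `v × v`
block `K i j * J` if `A i j = 0` and by `A i j * (J - 2 * I)` otherwise. The inner products of distinct
rows are then multiples of `4 * d`, or they are `N + 4 * k * (v - 1) - 4 * w`, which is one too, and the
orders `N + 4 * k * (v - 1)` are all large multiples of four.

Proof of the stubs: helpers 83 (projective planes), 57 (Kronecker products), 48 (Williamson array), 73 (four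
odd squares), 13 (embedding), 20 (blow-up), 31 (sizes); the `log*` theorem is from the starting files.
-/

namespace Pool.Agent.Results.MP_d8b1b3_co.AllOddModuli

/-- There is `n₀` such that for all `n ≥ n₀`, all `a ≥ 2` with `2 ^ a ∣ n` and all odd
`d ≤ (log n) ^ (1 / 8)` there is an `n × n` matrix with entries `1` and `-1` whose distinct rows have
inner products divisible by `2 ^ a * d`. -/
theorem result : ∃ n₀ : ℕ, ∀ n : ℕ, n₀ ≤ n → ∀ a d : ℕ, 2 ≤ a → 2 ^ a ∣ n → Odd d →
    (d : ℝ) ≤ (Real.log n) ^ (1 / 8 : ℝ) →
    ∃ H : Matrix (Fin n) (Fin n) ℤ, (∀ i j, H i j = 1 ∨ H i j = -1) ∧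
      ∀ i j, i ≠ j → ((2 ^ a * d : ℕ) : ℤ) ∣ (H * H.transpose) i j :=
  Pool.Agent.H29MM.main
    (Pool.Agent.H29MM.ARR.t (Pool.Agent.H29MM.ODD.t Pool.Agent.H29MM.PGM.t))
    Pool.Agent.H29MM.FOUR.t Pool.Agent.H29MM.EMB.t Pool.Agent.H29MM.BLOW.t Pool.Agent.H29MM.SIZE.t

end Pool.Agent.Results.MP_d8b1b3_co.AllOddModuli
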