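import Pool.Agent.H34FO.Lower
import Pool.Agent.H34FO.Upper

/-!
# The optimal flatness of orthogonal matrices

A Hadamard matrix of order `n` is a real matrix `M` with `M Mᵀ = n I` and `|M_ij| = 1` for all entries.
How close to one can the entries `|M_ij|` be in the other orders?

1. For every `n` there is a real `n × n` matrix with `M Mᵀ = n I` (exactly) and
   `||M_ij| - 1| ≤ 2 ^ (C ^ (1 + log* n)) / √n` for all entries.
2. For every `n ≥ 3` which is not divisible by four every real `n × n` matrix with `M Mᵀ = n I` has an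
   entry with `||M_ij| - 1| > 1 / (3 √n)`.

So the optimal error is `n ^ (-1 / 2)` up to the extremely slowly growing factor
`2 ^ (C ^ (1 + log* n))` for all `n` which are not divisible by four.

Proof. (1) By the `log*` theorem of the starting files there is a Hadamard matrix
`H = [A B; C D]` of order `N = n + m`, `m < r = 2 ^ (C₀ ^ (1 + log* n))`, with `A` of order `n`. Closing
the feedback loop gives `M = A + B (√N - D)⁻¹ C` with `M Mᵀ = N I` exactly, and the entries of
`M - A` are at most `m / (√N - m)`.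
(2) Let `S` be the matrix of the signs of `M` and `E = M - S`. If the entries of `E` are at most
`1 / (3 √n)` then the Frobenius norm of `S Sᵀ - n I = - M Eᵀ - E Mᵀ + E Eᵀ` is at most `7 n / 9`. But
the inner products of different rows of `S` are odd if `n` is odd, and if `n = 2 (mod 4)` they are even
and three rows are never pairwise orthogonal, as
`n + ⟨x, y⟩ + ⟨x, z⟩ + ⟨y, z⟩ = 0 (mod 4)`.
-/

set_option autoImplicit false

namespace Pool.Agent.Results.MP_d8b1b3_co.FlatOrthogonalMatrices

/-- **The optimal flatness of orthogonal matrices.** The tower is the `k`-fold iterate of `x ↦ 2 ^ x`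
at `1`. -/
theorem result :
    (∃ C : ℕ, ∀ k n : ℕ, 1 ≤ n → n ≤ (fun x : ℕ => 2 ^ x)^[k] 1 →
      ∃ M : Matrix (Fin n) (Fin n) ℝ,
        M * M.transpose = (n : ℝ) • (1 : Matrix (Fin n) (Fin n) ℝ) ∧
        ∀ i j, |(|M i j| - 1)| ≤ 2 ^ C ^ (k + 1) / √(n : ℝ)) ∧
    (∀ n : ℕ, 3 ≤ n → ¬ 4 ∣ n → ∀ M : Matrix (Fin n) (Fin n) ℝ,
      M * M.transpose = (n : ℝ) • (1 : Matrix (Fin n) (Fin n) ℝ) →
        ∃ i j, 1 / (3 * √(n : ℝ)) < |(|M i j| - 1)|) := by
  refine ⟨?_, fun n hn h4 M hM => Pool.Agent.H34FO.lower hn h4 M hM⟩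
  obtain ⟨C, h⟩ := Pool.Agent.H34FO.upper
  exact ⟨C, fun k n hn hnk => h k n hn hnk⟩

end Pool.Agent.Results.MP_d8b1b3_co.FlatOrthogonalMatrices
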