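import Pool.Agent.H87V.AW.Asm

/-!
# Skew-Hadamard matrices with all possible splittings, amicable with a symmetric Hadamard matrix

There is a constant `C` such that for all natural numbers `n`, `q > 0`, `t` with `q ≤ 2 ↑↑ n` (the
power tower of `n` twos, `1` for `n = 0`) and `t ≥ 2 ^ C ^ (n + 1)`, with `N = 2 ^ t * q`, and for
EVERY `w < N` there are `N × N` integer matrices `A`, `B`, `R`: `A` and `B` are skew with entries
`0, 1, -1`, every off-diagonal position is nonzero in exactly one of them, `A Aᵀ = w I`,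
`B Bᵀ = (N - 1 - w) I`, `A Bᵀ + B Aᵀ = 0`; `R` is a symmetric Hadamard matrix, and
`A Rᵀ = R Aᵀ`, `B Rᵀ = R Bᵀ`.

So `x I + y A + z B` is a full orthogonal design of type `(1, w, N - 1 - w)`, `H = I + A ± B` are
skew-Hadamard matrices, and `H Rᵀ = R Hᵀ`: the pair `(H, R)` is a pair of amicable Hadamard matrices.

Proof: the gadgets with arms of the starting files (pairs of complementary skew matrices of all weights
in order `J = 2 ^ (5 * 2 ^ k - 1)`) are filled with complementary sequences of two kinds which have total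
cross-correlation zero; the symmetric part of the same filling is the matrix `R`. Larger powers of two
come from the product `A ⊗ R' + 1 ⊗ A'`, `B ⊗ R' + 1 ⊗ B'`, `R ⊗ R'`.
-/

namespace Pool.Agent.Results.MP_d8b1b3_co.FullDesignsAllWeights

open Pool.Agent.H87V.AW

theorem result : ∃ C : ℕ, ∀ n q t w : ℕ, 0 < q → q ≤ (fun x : ℕ => 2 ^ x)^[n] 1 →
    2 ^ C ^ (n + 1) ≤ t → w < 2 ^ t * q →
    ∃ A B R : Matrix (Fin (2 ^ t * q)) (Fin (2 ^ t * q)) ℤ,
      A.transpose = -A ∧ B.transpose = -B ∧ R.transpose = R ∧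
      (∀ i j, i ≠ j → ((A i j = 1 ∨ A i j = -1) ∧ B i j = 0) ∨
        (A i j = 0 ∧ (B i j = 1 ∨ B i j = -1))) ∧
      (∀ i j, R i j = 1 ∨ R i j = -1) ∧
      A * A.transpose = (w : ℤ) • (1 : Matrix (Fin (2 ^ t * q)) (Fin (2 ^ t * q)) ℤ) ∧
      B * B.transpose = (((2 ^ t * q : ℕ) : ℤ) - 1 - w) •
        (1 : Matrix (Fin (2 ^ t * q)) (Fin (2 ^ t * q)) ℤ) ∧
      A * B.transpose + B * A.transpose = 0 ∧
      R * R.transpose = ((2 ^ t * q : ℕ) : ℤ) •
        (1 : Matrix (Fin (2 ^ t * q)) (Fin (2 ^ t * q)) ℤ) ∧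
      A * R.transpose = R * A.transpose ∧ B * R.transpose = R * B.transpose := by
  obtain ⟨C, h⟩ := main_full
  refine ⟨C, fun n q t w hq hqn ht hw => ?_⟩
  obtain ⟨A, B, R, h⟩ := h n q t hq hqn ht w hw
  have hAB := anti h.AB
  have hAR := anti h.AR
  have hBR := anti h.BR
  refine ⟨A, B, R, h.AT, h.BT, h.RT, h.AB1, h.R1, ?_, ?_, ?_, ?_, ?_, ?_⟩
  · rw [h.AT, mul_neg, h.AA, neg_smul, neg_neg]
  · rw [h.BT, mul_neg, h.BB, neg_smul, neg_neg, Fintype.card_fin]
  · rw [h.AT, h.BT, mul_neg, mul_neg, ← neg_add, hAB, neg_zero]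
  · rw [h.RT, h.RR, Fintype.card_fin]
  · rw [h.RT, h.AT, mul_neg]
    exact eq_neg_of_add_eq_zero_left hAR
  · rw [h.RT, h.BT, mul_neg]
    exact eq_neg_of_add_eq_zero_left hBR

end Pool.Agent.Results.MP_d8b1b3_co.FullDesignsAllWeights
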