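import Pool.Agent.H34NI.Main

/-!
# Sign matrices of every order which are nearly multiples of orthogonal matrices

For every `n` (no congruence condition) there is an `n × n` matrix `A` with entries `1` and `-1` such
that `|‖A x‖² - n ‖x‖²| ≤ 2 ^ (C ^ (1 + log* n)) n ^ (3 / 4) ‖x‖²` for all real vectors `x`.

Proof.  Let `ρ = 2 ^ (C ^ (1 + log* n))`.  By the `log*` theorem of the starting files there is a
Hadamard matrix of order `n + m` with `m < ρ`; closing a feedback loop through its last `m`
coordinates gives a real matrix `M` with `M Mᵀ = n I` and all entries within `η = ρ / √n` of `1` or `-1`.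
The matrix `T = (1 - η) M` is rounded to signs row by row: the next row of `A` is chosen so that
`tr (u I - Σ e eᵀ)⁻¹` does not increase, where the vectors `e` are the rows of `A - T` chosen so far
and the barrier `u` grows by `8 η` in every step.  This works because the condition for the next
row is linear in `e eᵀ`, and for a random sign row with mean the row of `T` the matrix
`E (e eᵀ)` is diagonal with entries at most `4 η`.  At the end the square of the operator norm of
`A - T` is at most `16 η n = 16 ρ √n`, with no logarithmic loss.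
-/

set_option autoImplicit false

namespace Pool.Agent.Results.MP_d8b1b3_co.NearIsometryAllOrders

/-- There is `C` such that for all `k` and all `n` from `1` to `2 ↑↑ k` (the `k`-fold iterate of
`x ↦ 2 ^ x` at `1`) there is an `n × n` matrix `A` with entries `1` and `-1` with
`|‖A x‖² - n ‖x‖²| ≤ 2 ^ (C ^ (k + 1)) n ^ (3 / 4) ‖x‖²` for all real vectors `x`. -/
theorem result : ∃ C : ℕ, ∀ k n : ℕ, 1 ≤ n → n ≤ (fun x : ℕ => 2 ^ x)^[k] 1 →
    ∃ A : Matrix (Fin n) (Fin n) ℝ, (∀ i j, A i j = 1 ∨ A i j = -1) ∧
      ∀ x : Fin n → ℝ, |∑ i, (∑ j, A i j * x j) ^ 2 - n * ∑ j, x j ^ 2| ≤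
        2 ^ C ^ (k + 1) * (n : ℝ) ^ (3 / 4 : ℝ) * ∑ j, x j ^ 2 := by
  obtain ⟨C, h⟩ := Pool.Agent.H34NI.near
  exact ⟨C, fun k n hn hnk => h k n hn hnk⟩

end Pool.Agent.Results.MP_d8b1b3_co.NearIsometryAllOrders
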